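import Pool.Agent.Y92.ZX.Stm

/-!
# Project ZX, block RED: data for all curves of bounded degree in large characteristic
-/

set_option autoImplicit false
set_option linter.unusedSectionVars false

open Polynomial

namespace Pool.Agent.Y448.ZX

open Pool.Agent.Y226 Pool.Agent.Y226.ZG Pool.Agent.Y226.ZM Pool.Agent.Y226.ZU Pool.Agent.Y92.ZX

/-! ### change of the ring of coefficients -/

section map

variable {R S : Type} [CommRing R] [CommRing S] (χ : R →+* S)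

/-- the map on power series -/
noncomputable def pmp : PowerSeries R →+* PowerSeries S := PowerSeries.map χ

theorem coeff_pmp (F : PowerSeries R) (m : ℕ) :
    PowerSeries.coeff m (pmp χ F) = χ (PowerSeries.coeff m F) := by
  unfold pmp
  rw [PowerSeries.coeff_map]

/-- the map on units -/
noncomputable def ump : (PowerSeries R)ˣ →* (PowerSeries S)ˣ := Units.map (pmp χ).toMonoidHom

theorem ump_val (y : (PowerSeries R)ˣ) : ((ump χ y : (PowerSeries S)ˣ) : PowerSeries S) =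
    pmp χ (y : PowerSeries R) := rfl

theorem ump_inv_val (y : (PowerSeries R)ˣ) :
    (((ump χ y)⁻¹ : (PowerSeries S)ˣ) : PowerSeries S) =
    pmp χ ((y⁻¹ : (PowerSeries R)ˣ) : PowerSeries R) := by
  rw [← map_inv]
  rfl

theorem E2_pmp (g : R[X][X]) (F G : PowerSeries R) :
    E2 (PowerSeries.C (R := S)) (pmp χ F) (pmp χ G) (g.map (mapRingHom χ)) =
      pmp χ (E2 (PowerSeries.C (R := R)) F G g) := by
  have h1 : (pmp χ).comp (PowerSeries.C (R := R)) = (PowerSeries.C (R := S)).comp χ := by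
    refine RingHom.ext fun r => ?_
    simp [pmp]
  rw [map_E2, E2_map, h1]

variable {n N W M d D : ℕ}

/-- the image of the data -/
noncomputable def mapRD (𝓡 : RD R n N W M d D) : RD S n N W M d D where
  g i s j := (𝓡.g i s j).map (mapRingHom χ)
  a := 𝓡.a
  b := 𝓡.b
  L i s j := ump χ (𝓡.L i s j)
  ys i s j := (𝓡.ys i s j).map (ump χ)
  fac i s j hij := (𝓡.fac i s j hij).map χ
  corner i j hij := by
    obtain ⟨c1, c2, c3, c4, c5, c6⟩ := 𝓡.corner i j hij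
    refine ⟨fun v => ?_, natDegree_map_le.trans c2, ?_, ?_, ?_, ?_⟩
    · rw [coeff_map, coe_mapRingHom]
      exact natDegree_map_le.trans (c1 v)
    · rw [cf_map]; exact c3.map χ
    · rw [cf_map]; exact c4.map χ
    · rw [cf_map]; exact c5.map χ
    · rw [cf_map]; exact c6.map χ
  yn i s j hij y hy := by
    obtain ⟨y₀, hy₀, rfl⟩ := Multiset.mem_map.1 hy
    obtain ⟨m, h1, h2⟩ := 𝓡.yn i s j hij y₀ hy₀
    refine ⟨m, h1, ?_⟩
    rw [ump_val, coeff_pmp]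
    exact h2.map χ
  br i s j k hij hik hjk y hy y' hy' A hA B hB hB0 := by
    obtain ⟨y₀, hy₀, rfl⟩ := Multiset.mem_map.1 hy
    obtain ⟨y₀', hy₀', rfl⟩ := Multiset.mem_map.1 hy'
    rw [ump_inv_val, ump_val, ump_val, E2_pmp, ← map_pow, ← map_pow, ← map_mul]
    rcases 𝓡.br i s j k hij hik hjk y₀ hy₀ y₀' hy₀' A hA B hB hB0 with ⟨m, h1, h2⟩ | ⟨m, h1, h2, h3⟩
    · left
      refine ⟨m, ?_, fun m' hm' => ?_⟩
      · rw [coeff_pmp]
        exact h1.map χ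
      · rw [coeff_pmp, h2 m' hm', map_zero]
    · right
      refine ⟨m, h1, h2, ?_⟩
      rw [coeff_pmp]
      exact h3.map χ
  h v w := (𝓡.h v w).map (mapRingHom χ)
  hBD v w hv hw hvw := (𝓡.hBD v w hv hw hvw).map χ
  hNC v w hv hw hvw k _ χ' := by
    have h1 := 𝓡.hNC v w hv hw hvw k (χ'.comp χ)
    have h2 : (fun m => χ' (cf ((𝓡.h v w).map (mapRingHom χ)) m)) =
        fun m => (χ'.comp χ) (cf (𝓡.h v w) m) := by
      funext m
      rw [cf_map, RingHom.comp_apply]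
    rw [h2]
    exact h1
  hUV v w hv hw hvw := by
    obtain ⟨U, V, r, ⟨i, hi⟩, h1⟩ := 𝓡.hUV v w hv hw hvw
    refine ⟨U.map (mapRingHom χ), V.map (mapRingHom χ), r.map χ, ⟨i, ?_⟩, ?_⟩
    · rw [coeff_map]
      exact hi.map χ
    · have h2 := congrArg (Polynomial.map (mapRingHom χ)) h1
      rw [Polynomial.map_add, Polynomial.map_mul, Polynomial.map_mul, Polynomial.map_mul,
        ← derivative_map, Polynomial.map_X, Polynomial.map_C] at h2
      exact h2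

theorem mapRD_RDB {𝓡 : RD R n N W M d D} {B : ℕ} (h : RDB 𝓡 B) : RDB (mapRD χ 𝓡) B where
  card i s j hij := by
    have h1 : Multiset.card ((mapRD χ 𝓡).ys i s j) = Multiset.card (𝓡.ys i s j) :=
      Multiset.card_map _ _
    rw [h1]
    exact h.card i s j hij
  br i s j k hij hik hjk y hy y' hy' A hA B' hB hB0 := by
    obtain ⟨y₀, hy₀, rfl⟩ := Multiset.mem_map.1 hy
    obtain ⟨y₀', hy₀', rfl⟩ := Multiset.mem_map.1 hy'
    have hg : (mapRD χ 𝓡).g j false k = (𝓡.g j false k).map (mapRingHom χ) := rfl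
    rw [hg, ump_inv_val, ump_val, ump_val, E2_pmp, ← map_pow, ← map_pow, ← map_mul]
    rcases h.br i s j k hij hik hjk y₀ hy₀ y₀' hy₀' A hA B' hB hB0 with
      ⟨m, h0, h1, h2⟩ | ⟨m, h1, h2, h3⟩
    · left
      refine ⟨m, h0, ?_, fun m' hm' => ?_⟩
      · rw [coeff_pmp]
        exact h1.map χ
      · rw [coeff_pmp, h2 m' hm', map_zero]
    · right
      refine ⟨m, h1, h2, ?_⟩
      rw [coeff_pmp]
      exact h3.map χ

/-- the bounds exist -/
theorem exists_RDB (𝓡 : RD R n N W M d D) : Bdd (fun B => RDB 𝓡 B) := by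
  have h1 : Bdd (fun B => ∀ (i : Fin n) (s : Bool) (j : Fin n), i ≠ j →
      Multiset.card (𝓡.ys i s j) ≤ B) := by
    refine Bdd.all fun i => Bdd.all fun s => Bdd.all fun j => Bdd.imp fun _ => ?_
    exact ⟨Multiset.card (𝓡.ys i s j), fun B hB => hB⟩
  have h2 : Bdd (fun B => ∀ (i : Fin n) (s : Bool) (j k : Fin n), (i ≠ j ∧ i ≠ k ∧ j ≠ k) →
      ∀ y ∈ 𝓡.ys i s j, ∀ y' ∈ 𝓡.ys i s k, ∀ A, A ≤ W → ∀ B', B' ≤ W → 0 < B' →
      ((∃ m, m ≤ B ∧ IsUnit (PowerSeries.coeff m (E2 (PowerSeries.C (R := R)) (y : PowerSeries R)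
        (y' : PowerSeries R) (𝓡.g j false k))) ∧ ∀ m' < m, PowerSeries.coeff m'
          (E2 (PowerSeries.C (R := R)) (y : PowerSeries R) (y' : PowerSeries R)
            (𝓡.g j false k)) = 0) ∨
      (∃ m, 0 < m ∧ m ≤ D ∧ IsUnit (PowerSeries.coeff m ((y' : PowerSeries R) ^ B' *
        ((y⁻¹ : (PowerSeries R)ˣ) : PowerSeries R) ^ A))))) := by
    refine Bdd.all fun i => Bdd.all fun s => Bdd.all fun j => Bdd.all fun k => Bdd.imp fun hijk =>
      Bdd.multiset _ fun y hy => Bdd.multiset _ fun y' hy' => Bdd.nat_le _ fun A hA =>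
      Bdd.nat_le _ fun B' hB' => Bdd.imp fun hB0 => ?_
    rcases 𝓡.br i s j k hijk.1 hijk.2.1 hijk.2.2 y hy y' hy' A hA B' hB' hB0 with
      ⟨m, e1, e2⟩ | h3
    · exact ⟨m, fun B hB => Or.inl ⟨m, hB, e1, e2⟩⟩
    · exact ⟨0, fun B _ => Or.inr h3⟩
  obtain ⟨B₁, hB₁⟩ := h1
  obtain ⟨B₂, hB₂⟩ := h2
  refine ⟨B₁ + B₂, fun B hB => ⟨fun i s j hij => hB₁ B (by omega) i s j hij, ?_⟩⟩
  intro i s j k hij hik hjk
  exact hB₂ B (by omega) i s j k ⟨hij, hik, hjk⟩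

end map

/-! ### clearing denominators -/

section clr

variable {R : Type} [CommRing R] {σ : Type}

/-- clearing denominators -/
noncomputable def clrR (h : R[X][X]) (d : ℕ) (u u' w w' : MvPolynomial σ R) : MvPolynomial σ R :=
  ∑ m ∈ box d, MvPolynomial.C (cf h m) * (u ^ m.1 * u' ^ (d - m.1)) * (w ^ m.2 * w' ^ (d - m.2))

theorem clrR_map {L : Type} [CommRing L] (θ : MvPolynomial σ R →+* L) (ι : R →+* L)
    (hι : ∀ c, θ (MvPolynomial.C c) = ι c) {h : R[X][X]} {d : ℕ} (hd : BD d h)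
    {u u' w w' : MvPolynomial σ R} {a b : L} (ha : θ u = a * θ u') (hb : θ w = b * θ w') :
    θ (clrR h d u u' w w') = θ u' ^ d * θ w' ^ d * E2 ι a b h := by
  unfold clrR
  rw [map_sum, E2_eq_sum hd, Finset.mul_sum]
  refine Finset.sum_congr rfl fun m hm => ?_
  simp only [box, Finset.mem_product, Finset.mem_range] at hm
  have h1 : m.1 ≤ d := by omega
  have h2 : m.2 ≤ d := by omega
  have e1 : θ u' ^ d = θ u' ^ m.1 * θ u' ^ (d - m.1) := by rw [← pow_add, Nat.add_sub_cancel' h1]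
  have e2 : θ w' ^ d = θ w' ^ m.2 * θ w' ^ (d - m.2) := by rw [← pow_add, Nat.add_sub_cancel' h2]
  simp only [map_mul, map_pow]
  rw [hι, ha, hb, e1, e2]
  ring

/-- numerator of a coordinate or its inverse -/
noncomputable def nu {n : ℕ} (R : Type) [CommRing R] (i : Fin n) (s : Bool) :
    MvPolynomial (Fin n) R := if s then 1 else MvPolynomial.X i

/-- denominator of a coordinate or its inverse -/
noncomputable def de {n : ℕ} (R : Type) [CommRing R] (i : Fin n) (s : Bool) :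
    MvPolynomial (Fin n) R := if s then MvPolynomial.X i else 1

theorem nu_map {n : ℕ} {L : Type} [Field L] (θ : MvPolynomial (Fin n) R →+* L) {y : Fin n → L}
    (hθ : ∀ i, θ (MvPolynomial.X i) = y i) (hy : ∀ i, y i ≠ 0) (i : Fin n) (s : Bool) :
    θ (nu R i s) = xs y i s * θ (de R i s) := by
  unfold nu de xs
  cases s
  · simp [hθ]
  · simp [hθ, hy i]

theorem de_ne {n : ℕ} {L : Type} [Field L] (θ : MvPolynomial (Fin n) R →+* L) {y : Fin n → L}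
    (hθ : ∀ i, θ (MvPolynomial.X i) = y i) (hy : ∀ i, y i ≠ 0) (i : Fin n) (s : Bool) :
    θ (de R i s) ≠ 0 := by
  unfold de
  cases s
  · simp
  · simp [hθ, hy i]

/-- numerators of monomials -/
noncomputable def mnumR {n : ℕ} (R : Type) [CommRing R] (v : Fin n → ℤ) :
    MvPolynomial (Fin n) R := ∏ i, MvPolynomial.X i ^ (v i).toNat

theorem mnumR_map {n : ℕ} {L : Type} [Field L] (θ : MvPolynomial (Fin n) R →+* L) {y : Fin n → L}
    (hθ : ∀ i, θ (MvPolynomial.X i) = y i) (hy : ∀ i, y i ≠ 0) (v : Fin n → ℤ) :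
    θ (mnumR R v) = (∏ i, y i ^ v i) * θ (mnumR R (fun i => -v i)) := by
  unfold mnumR
  rw [map_prod, map_prod, ← Finset.prod_mul_distrib]
  refine Finset.prod_congr rfl fun i _ => ?_
  rw [map_pow, map_pow, hθ]
  exact zpow_split fun _ => hy i

theorem mnumR_ne {n : ℕ} {L : Type} [Field L] (θ : MvPolynomial (Fin n) R →+* L) {y : Fin n → L}
    (hθ : ∀ i, θ (MvPolynomial.X i) = y i) (hy : ∀ i, y i ≠ 0) (v : Fin n → ℤ) :
    θ (mnumR R v) ≠ 0 := by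
  unfold mnumR
  rw [map_prod]
  refine Finset.prod_ne_zero_iff.2 fun i _ => ?_
  rw [map_pow, hθ]
  exact pow_ne_zero _ (hy i)

end clr

/-- the first relations as polynomials -/
noncomputable def P1 {R : Type} [CommRing R] {n N W M d D : ℕ} (𝓡 : RD R n N W M d D)
    (e : Fin n × Bool × Fin n → ℕ) (q : Fin n × Bool × Fin n) : MvPolynomial (Fin n) R :=
  clrR (𝓡.g q.1 q.2.1 q.2.2) (e q) (nu R q.1 q.2.1) (de R q.1 q.2.1) (MvPolynomial.X q.2.2) 1

/-- the second relations as polynomials -/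
noncomputable def P2 {R : Type} [CommRing R] {n N W M d D : ℕ} (𝓡 : RD R n N W M d D)
    (q : (Fin n → ℤ) × (Fin n → ℤ)) : MvPolynomial (Fin n) R :=
  clrR (𝓡.h q.1 q.2) d (mnumR R q.1) (mnumR R (fun i => -q.1 i)) (mnumR R q.2)
    (mnumR R (fun i => -q.2 i))

section rel

variable {R : Type} [CommRing R] {n N W M d D : ℕ} {𝓡 : RD R n N W M d D}
  {e : Fin n × Bool × Fin n → ℕ} {L : Type} [Field L] (θ : MvPolynomial (Fin n) R →+* L)
  (ι : R →+* L) (hι : ∀ c, θ (MvPolynomial.C c) = ι c) {y : Fin n → L}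
  (hθ : ∀ i, θ (MvPolynomial.X i) = y i) (hy : ∀ i, y i ≠ 0)

include hι hθ hy

theorem P1_iff (he : ∀ q, BD (e q) (𝓡.g q.1 q.2.1 q.2.2)) (q : Fin n × Bool × Fin n) :
    θ (P1 𝓡 e q) = 0 ↔ E2 ι (xs y q.1 q.2.1) (y q.2.2) (𝓡.g q.1 q.2.1 q.2.2) = 0 := by
  unfold P1
  rw [clrR_map θ ι hι (he q) (nu_map θ hθ hy q.1 q.2.1)
    (show θ (MvPolynomial.X q.2.2) = y q.2.2 * θ 1 by rw [hθ, map_one, mul_one])]
  rw [map_one, one_pow, mul_one, mul_eq_zero]
  constructor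
  · rintro (h | h)
    · exact absurd h (pow_ne_zero _ (de_ne θ hθ hy _ _))
    · exact h
  · exact Or.inr

theorem P2_iff {v w : Fin n → ℤ} (hv : Bv M v) (hw : Bv M w) (hvw : LI v w) :
    θ (P2 𝓡 (v, w)) = 0 ↔ E2 ι (∏ i, y i ^ v i) (∏ i, y i ^ w i) (𝓡.h v w) = 0 := by
  unfold P2
  rw [clrR_map θ ι hι (𝓡.hBD v w hv hw hvw) (mnumR_map θ hθ hy v) (mnumR_map θ hθ hy w),
    mul_eq_zero, mul_eq_zero]
  constructor
  · rintro ((h | h) | h)
    · exact absurd h (pow_ne_zero _ (mnumR_ne θ hθ hy _))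
    · exact absurd h (pow_ne_zero _ (mnumR_ne θ hθ hy _))
    · exact h
  · exact Or.inr

end rel

theorem red (hUL : S_UL) : S_RED := by
  classical
  intro n d₀ W
  by_contra hcon
  have hcon' : ∀ m : ℕ, ∃ (p : ℕ) (_ : Fact p.Prime) (_ : m < p) (𝕜 : Type) (_ : Field 𝕜)
      (_ : IsAlgClosed 𝕜) (_ : CharP 𝕜 p) (I : Ideal (MvPolynomial (Fin n) 𝕜)) (_ : CC d₀ I),
      ¬ ∃ (N M d D : ℕ) (𝓡 : RD 𝕜 n N W M d D), 0 < N ∧ N ≤ m ∧ W * N + W ≤ M ∧
        M ≤ m ∧ d ≤ m ∧ D ≤ m ∧ RDB 𝓡 m ∧ Rels 𝓡 I := by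
    intro m
    by_contra h
    apply hcon
    refine ⟨m, fun p hp hm 𝕜 hF hA hC I hI => ?_⟩
    by_contra h'
    exact h ⟨p, hp, hm, 𝕜, hF, hA, hC, I, hI, h'⟩
  choose pp hpf hlt 𝕜 iF iA iC I hCC hno using hcon'
  obtain ⟨𝒦, iK, iKA, iKC, J, hJ, hR⟩ := hUL n d₀ 𝕜 pp hlt (fun m => (hpf m).out) I hCC
  haveI := hJ.prime
  obtain ⟨𝔽, _, _, x, hx1, hx2⟩ := ff_of_prime J
  obtain ⟨𝒞, h𝒞⟩ := exists_GP x hx1 (fun i => by
      intro halg
      obtain ⟨r, hr, hr0⟩ := halg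
      obtain ⟨c, hc⟩ := root_const (algebraMap 𝒦 𝔽) hr hr0
      apply hJ.const i c
      rw [← hx2, map_sub, MvPolynomial.aeval_X, MvPolynomial.aeval_C, hc, sub_self])
    (fun i j hij => by
      obtain ⟨a, b, g, -, -, h1, h2, h3, h4, h5⟩ := hJ.gen i j hij
      refine ⟨a, b, mkG a b g, mkG_cor h1 h2 h3 h4, ?_⟩
      rw [← E2_mkG, ← hx2, aeval_E2, MvPolynomial.aeval_X, MvPolynomial.aeval_X] at h5
      exact h5)
  subst h𝒞
  obtain ⟨H, d, D, hH, -, S₀, hS₀⟩ := 𝒞.exists_RD W (W * 𝒞.N + W)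
  obtain ⟨R, hRS, hRm⟩ := hR S₀
  obtain ⟨𝓡, hg, hh, -⟩ := hS₀ R hRS
  obtain ⟨B₁, hB₁⟩ := exists_RDB 𝓡
  choose e he using fun q : Fin n × Bool × Fin n => exists_BD (𝓡.g q.1 q.2.1 q.2.2)
  -- the polynomials
  let Ps : Set (MvPolynomial (Fin n) R) :=
    (P1 𝓡 e '' {q | q.1 ≠ q.2.2}) ∪ (P2 𝓡 '' {q | Bv (W * 𝒞.N + W) q.1 ∧
      Bv (W * 𝒞.N + W) q.2 ∧ LI q.1 q.2})
  have hfin : Ps.Finite := (Set.toFinite _).union ((finite_Bv n (W * 𝒞.N + W)).image _)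
  -- evaluation at the generic point
  let θ : MvPolynomial (Fin n) R →+* 𝔽 :=
    (MvPolynomial.aeval 𝒞.x : MvPolynomial (Fin n) 𝒦 →ₐ[𝒦] 𝔽).toRingHom.comp
      (MvPolynomial.map R.subtype)
  have hι : ∀ c, θ (MvPolynomial.C c) = ((algebraMap 𝒦 𝔽).comp R.subtype) c := by
    intro c
    show MvPolynomial.aeval 𝒞.x (MvPolynomial.map R.subtype (MvPolynomial.C c)) = _
    rw [MvPolynomial.map_C, MvPolynomial.aeval_C]
    rfl
  have hθ : ∀ i, θ (MvPolynomial.X i) = 𝒞.x i := by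
    intro i
    show MvPolynomial.aeval 𝒞.x (MvPolynomial.map R.subtype (MvPolynomial.X i)) = _
    rw [MvPolynomial.map_X, MvPolynomial.aeval_X]
  have hPJ : ∀ P ∈ Ps, MvPolynomial.map R.subtype P ∈ J := by
    rintro P (⟨q, hq, rfl⟩ | ⟨⟨v, w⟩, ⟨hv, hw, hvw⟩, rfl⟩)
    · rw [← hx2]
      change θ (P1 𝓡 e q) = 0
      rw [P1_iff θ _ hι hθ 𝒞.x_ne he, ← E2_map, hg _ _ _ hq]
      exact 𝒞.rel _ _ _ hq
    · rw [← hx2]
      change θ (P2 𝓡 (v, w)) = 0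
      rw [P2_iff θ _ hι hθ 𝒞.x_ne hv hw hvw, ← E2_map, hh _ _ hv hw hvw]
      exact hH v w hvw
  obtain ⟨m, hm, χ, hχ⟩ := hRm Ps hfin hPJ (𝒞.N + (W * 𝒞.N + W) + d + D + B₁)
  apply hno m
  refine ⟨𝒞.N, W * 𝒞.N + W, d, D, mapRD χ 𝓡, 𝒞.hN, by omega, le_rfl, by omega, by omega,
    by omega, mapRD_RDB χ (hB₁ m (by omega)), ?_⟩
  intro 𝔽' _ _ y hyI hy0
  let θ' : MvPolynomial (Fin n) R →+* 𝔽' :=
    (MvPolynomial.aeval y : MvPolynomial (Fin n) (𝕜 m) →ₐ[𝕜 m] 𝔽').toRingHom.comp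
      (MvPolynomial.map χ)
  have hι' : ∀ c, θ' (MvPolynomial.C c) = ((algebraMap (𝕜 m) 𝔽').comp χ) c := by
    intro c
    show MvPolynomial.aeval y (MvPolynomial.map χ (MvPolynomial.C c)) = _
    rw [MvPolynomial.map_C, MvPolynomial.aeval_C]
    rfl
  have hθ' : ∀ i, θ' (MvPolynomial.X i) = y i := by
    intro i
    show MvPolynomial.aeval y (MvPolynomial.map χ (MvPolynomial.X i)) = _
    rw [MvPolynomial.map_X, MvPolynomial.aeval_X]
  refine ⟨fun i s j hij => ?_, fun v w hv hw hvw => ?_⟩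
  · have h1 : θ' (P1 𝓡 e (i, s, j)) = 0 :=
      hyI _ (hχ _ (Or.inl ⟨(i, s, j), hij, rfl⟩))
    rw [P1_iff θ' _ hι' hθ' hy0 he, ← E2_map] at h1
    exact h1
  · have h1 : θ' (P2 𝓡 (v, w)) = 0 :=
      hyI _ (hχ _ (Or.inr ⟨(v, w), ⟨hv, hw, hvw⟩, rfl⟩))
    rw [P2_iff θ' _ hι' hθ' hy0 hv hw hvw, ← E2_map] at h1
    exact h1

end Pool.Agent.Y448.ZX
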